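import Pool.Agent.TH462.HL2.Fin
import Pool.Agent.W650.HL.AllC

set_option autoImplicit false

/-! From trees as simple graphs to rooted plane trees. -/

namespace Pool.Agent.TH462.HL2

open RT Finset Pool.W650.HL

/-- general message -/
noncomputable def msgF {r : ℕ} (w : Fin r → ℝ) : RT → Fin r → ℝ
  | RT.leaf => fun _ => 1
  | RT.join t c => fun i => msgF w t i * Mop w (msgF w c) i

theorem bridge {r : ℕ} (w : Fin r → ℝ) (N : ℕ) :
    ∀ (V : Type) [Fintype V] (G : SimpleGraph V), Fintype.card V = N + 1 → G.IsTree →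
    ∀ R : V → RT, ∃ T : RT, size T = ∑ v, size (R v) ∧
      Zf w G (fun v => msgF w (R v)) = ∑ i, w i * msgF w T i := by
  induction N with
  | zero =>
    intro V _ G hc hG R
    obtain ⟨x, hx⟩ := Fintype.card_eq_one_iff.1 hc
    refine ⟨R x, ?_, Zf_single w G _ hc x⟩
    rw [Fintype.sum_eq_single x]
    intro y hy
    exact absurd (hx y) hy
  | succ N ih =>
    intro V _ G hc hG R
    classical
    obtain ⟨c⟩ := hG.connected.nonempty
    obtain ⟨l, u, hlc, hleaf⟩ := exleaf' V G hG c (by omega)
    have hul : u ≠ l := hleaf.1.ne'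
    obtain ⟨ht, -⟩ := deltree' V G l u hG hleaf
    have hcard : Fintype.card {x : V // x ≠ l} = N + 1 := by
      rw [card_del, hc]
      rfl
    let R' : {x : V // x ≠ l} → RT := fun v => if v.1 = u then join (R u) (R l) else R v.1
    obtain ⟨T, hT1, hT2⟩ := ih {x : V // x ≠ l} (del G l) hcard ht R'
    refine ⟨T, ?_, ?_⟩
    · rw [hT1]
      have e1 : ∑ v : {x : V // x ≠ l}, size (R' v)
          = ∑ v : {x : V // x ≠ l}, size (R v.1) + size (R l) := by
        have : ∀ v : {x : V // x ≠ l}, size (R' v)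
            = size (R v.1) + (if v = ⟨u, hul⟩ then size (R l) else 0) := by
          intro v
          by_cases hv : v.1 = u
          · have h2 : v = ⟨u, hul⟩ := Subtype.ext hv
            simp [R', h2, size]
          · have h2 : v ≠ ⟨u, hul⟩ := fun h => hv (congrArg Subtype.val h)
            simp [R', hv, h2]
        rw [Finset.sum_congr rfl fun v _ => this v, Finset.sum_add_distrib]
        simp
      have e2 : ∑ v, size (R v) = size (R l) + ∑ v : {x : V // x ≠ l}, size (R v.1) := by
        rw [← Finset.add_sum_erase univ (fun v => size (R v)) (Finset.mem_univ l)]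
        congr 1
        rw [← Finset.sum_subtype (univ.erase l) (p := fun x => x ≠ l) (fun x => by simp)
          (fun v => size (R v))]
      rw [e1, e2]
      ring
    · rw [← hT2, leafrem' V r w G _ l u hleaf]
      congr 1
      funext v i
      by_cases hv : v.1 = u
      · simp [R', hv, msgF]
      · simp [R', hv]

theorem bridge_one {r : ℕ} (w : Fin r → ℝ) (n : ℕ) (G : SimpleGraph (Fin (n + 1)))
    (hG : G.IsTree) : ∃ T : RT, size T = n + 1 ∧
      Zf w G (fun _ _ => 1) = ∑ i, w i * msgF w T i := by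
  obtain ⟨T, h1, h2⟩ := bridge w n (Fin (n + 1)) G (by simp) hG (fun _ => leaf)
  refine ⟨T, ?_, ?_⟩
  · rw [h1]; simp [size]
  · rw [← h2]; rfl

theorem msgF_L {r : ℕ} (w : Fin r → ℝ) (n : ℕ) : msgF w (L n) = U w n := by
  induction n with
  | zero => rfl
  | succ n ih =>
    have h : L (n + 1) = join leaf (L n) := rfl
    rw [h]
    funext i
    have h2 : U w (n + 1) = Mop w (U w n) := by
      unfold U
      rw [Function.iterate_succ_apply']
    rw [h2]
    simp only [msgF, ih, one_mul]

theorem path_eq {r : ℕ} (w : Fin r → ℝ) (n : ℕ) :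
    Zf w (SimpleGraph.pathGraph (n + 1)) (fun _ _ => 1) = ∑ i, w i * msgF w (L n) i := by
  rw [pathz' n r w, msgF_L]

/-- the sum over a two valued function -/
theorem sum_two {r : ℕ} (S : Finset (Fin r)) (x y : ℝ) :
    ∑ i, (if i ∈ S then x else y) = (S.card : ℝ) * x + ((Sᶜ).card : ℝ) * y := by
  rw [← Finset.sum_add_sum_compl S]
  rw [Finset.sum_congr rfl (g := fun _ => x) (fun i hi => by simp [hi]),
    Finset.sum_congr (s₁ := Sᶜ) rfl (g := fun _ => y)
      (fun i hi => by simp [Finset.mem_compl.1 hi])]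
  simp

theorem msgF_two {r : ℕ} (S : Finset (Fin r)) (a b : ℝ) (T : RT) :
    msgF (fun i => if i ∈ S then a else b) T
      = fun i => if i ∈ S then (msg a b (S.card) ((Sᶜ).card) T).1
          else (msg a b (S.card) ((Sᶜ).card) T).2 := by
  induction T with
  | leaf => funext i; simp [msgF]
  | join t c h1 h2 =>
    funext i
    have hs : ∑ j, (if j ∈ S then a else b) * (if j ∈ S then
        (msg a b (S.card) ((Sᶜ).card) c).1 else (msg a b (S.card) ((Sᶜ).card) c).2)
        = (S.card : ℝ) * (a * (msg a b (S.card) ((Sᶜ).card) c).1)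
          + ((Sᶜ).card : ℝ) * (b * (msg a b (S.card) ((Sᶜ).card) c).2) := by
      rw [← sum_two]
      apply Finset.sum_congr rfl
      intro j _
      by_cases hj : j ∈ S <;> simp [hj]
    simp only [msgF, h1, h2, Mop, hs]
    by_cases hi : i ∈ S
    · simp only [hi, if_true, msg_join, Prod.fst_mul, Mv]
      ring
    · simp only [hi, if_false, msg_join, Prod.snd_mul, Mv]
      ring

theorem Z_two {r : ℕ} (S : Finset (Fin r)) (a b : ℝ) (T : RT) :
    ∑ i, (if i ∈ S then a else b) * msgF (fun i => if i ∈ S then a else b) T i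
      = Z a b (S.card) ((Sᶜ).card) T := by
  rw [msgF_two, Z, av]
  have : ∀ i : Fin r, (if i ∈ S then a else b) * (if i ∈ S then
        (msg a b (S.card) ((Sᶜ).card) T).1 else (msg a b (S.card) ((Sᶜ).card) T).2)
        = if i ∈ S then a * (msg a b (S.card) ((Sᶜ).card) T).1
            else b * (msg a b (S.card) ((Sᶜ).card) T).2 := by
    intro i
    by_cases hi : i ∈ S <;> simp [hi]
  rw [Finset.sum_congr rfl fun i _ => this i, sum_two]
  ring

theorem nat_msg (a b P Q : ℕ) (hP : 1 ≤ P) (hQ : 1 ≤ Q) (T : RT) :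
    ∃ u v : ℕ, msg (a : ℝ) b P Q T = ((u : ℝ), (v : ℝ)) := by
  induction T with
  | leaf => exact ⟨1, 1, by simp⟩
  | join t c h1 h2 =>
    obtain ⟨u, v, h1⟩ := h1
    obtain ⟨u', v', h2⟩ := h2
    refine ⟨u * ((P - 1) * a * u' + Q * b * v'), v * (P * a * u' + (Q - 1) * b * v'), ?_⟩
    rw [msg_join, h1, h2]
    simp only [Mv]
    push_cast [Nat.cast_sub hP, Nat.cast_sub hQ]
    rfl

theorem nat_Z (a b P Q : ℕ) (hP : 1 ≤ P) (hQ : 1 ≤ Q) (T : RT) :
    ∃ k : ℕ, Z (a : ℝ) b P Q T = k := by
  obtain ⟨u, v, h⟩ := nat_msg a b P Q hP hQ T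
  refine ⟨P * a * u + Q * b * v, ?_⟩
  rw [Z, h, av]
  push_cast
  ring

/-- constant weights -/
theorem msgF_const {r : ℕ} (s : ℝ) (T : RT) :
    msgF (fun _ : Fin r => s) T = fun _ => ((r : ℝ) * s - s) ^ (size T - 1) := by
  induction T with
  | leaf => funext i; simp [msgF, size]
  | join t c h1 h2 =>
    funext i
    simp only [msgF, h1, h2, Mop]
    have e : size t + size c - 1 = (size t - 1) + ((size c - 1) + 1) := by
      have := size_pos t
      have := size_pos c
      omega
    rw [size, e, pow_add, pow_succ]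
    congr 1
    rw [Finset.sum_const, Finset.card_univ, Fintype.card_fin, nsmul_eq_mul]
    ring

end Pool.Agent.TH462.HL2
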