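import Pool.Agent.TH462.HL2.Min

set_option autoImplicit false

/-! The path has minimal weighted count for two-valued weights. -/

namespace Pool.Agent.TH462.HL2

variable {a b p q : ℝ}

open RT

/-- attach a list of branches at the root -/
def app (t : RT) (l : List RT) : RT := l.foldl RT.join t

theorem msg_app (t : RT) (l : List RT) :
    msg a b p q (app t l)
      = msg a b p q t * (l.map (fun d => Mv a b p q (msg a b p q d))).prod := by
  induction l generalizing t with
  | nil => simp [app]
  | cons d l ih =>
    have : app t (d :: l) = app (join t d) l := rfl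
    rw [this, ih, msg_join, List.map_cons, List.prod_cons]
    ring

theorem size_app (t : RT) (l : List RT) :
    size (app t l) = size t + (l.map size).sum := by
  induction l generalizing t with
  | nil => simp [app]
  | cons d l ih =>
    have : app t (d :: l) = app (join t d) l := rfl
    rw [this, ih, List.map_cons, List.sum_cons, size]
    ring

/-- all branches heavy: the product of the messages prefers light colours. -/
theorem pos_of_min (h : Par a b p q) (n : ℕ) (m0 : ℝ)
    (hlow : ∀ T, size T = n → m0 ≤ Z a b p q T) (t : RT) :
    ∀ l : List RT, size (app t l) = n → Z a b p q (app t l) = m0 →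
      (msg a b p q t).1 ≤ (msg a b p q t).2 := by
  induction t with
  | leaf => intro l _ _; simp
  | join t e ih _ =>
    intro l hs hZ
    have h1 : (msg a b p q t).1 ≤ (msg a b p q t).2 := ih (e :: l) hs hZ
    have hm : msg a b p q (app (join t e) l) = msg a b p q (join (app t l) e) := by
      rw [msg_app, msg_join, msg_join, msg_app]; ring
    have hs' : size (join (app t l) e) = n := by
      rw [← hs, size_app, size, size_app, size]; ring
    have h2 : b * (msg a b p q e).2 ≤ a * (msg a b p q e).1 := by
      apply claimAB h (app t l) e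
      intro T hT
      have : Z a b p q (join (app t l) e) = m0 := by
        rw [← hZ, Z, Z, hm]
      rw [this]
      exact hlow T (hT.trans hs')
    have h3 := delta_Mv (a := a) (b := b) (p := p) (q := q) (msg a b p q e)
    have pe := msg_pos h e
    have pm := Mv_pos h pe.1 pe.2
    have pt := msg_pos h t
    simp only [msg_join, Prod.fst_mul, Prod.snd_mul]
    exact mul_le_mul h1 (by linarith) pm.1.le pt.2.le

theorem exists_leafrep (m : ℕ) : ∀ t c : RT, size c = m →
    ∃ h' : RT, size (join h' leaf) = size (join t c) ∧
      Z a b p q (join h' leaf) = Z a b p q (join t c) ∧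
      W (join h' leaf) = W (join t c) := by
  induction m using Nat.strong_induction_on with
  | _ m ih =>
    intro t c hc
    cases c with
    | leaf => exact ⟨t, rfl, rfl, rfl⟩
    | join c' e =>
      have hlt : size e < m := by
        rw [← hc, size]
        have := size_pos c'
        omega
      obtain ⟨h', h1, h2, h3⟩ := ih (size e) hlt (join c' t) e rfl
      refine ⟨h', ?_, ?_, ?_⟩
      · rw [h1]; simp only [size]; omega
      · rw [h2, Z_swap t (join c' e), Z, Z, msg_comm]
      · rw [h3]; simp only [W, rd]; omega

theorem key (h : Par a b p q) (n : ℕ) (hn : 2 ≤ n) (m0 : ℝ) (w0 : ℕ)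
    (hlow : ∀ T, size T = n → m0 ≤ Z a b p q T)
    (hlow2 : ∀ T, size T = n → Z a b p q T = m0 → w0 ≤ W T)
    (T0 : RT) (h1 : size T0 = n) (h2 : Z a b p q T0 = m0) (h3 : W T0 = w0) :
    Z a b p q (L (n - 1)) = m0 := by
  classical
  -- representations with a leg
  let K : Set ℕ := {k | ∃ h' : RT, size (join h' (L k)) = n ∧
    Z a b p q (join h' (L k)) = m0 ∧ W (join h' (L k)) = w0}
  have hne : K.Nonempty := by
    refine ⟨0, ?_⟩
    cases T0 with
    | leaf => simp [size] at h1; omega
    | join t c =>
      obtain ⟨h', e1, e2, e3⟩ := exists_leafrep (a := a) (b := b) (p := p) (q := q) _ t c rfl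
      exact ⟨h', e1.trans h1, e2.trans h2, e3.trans h3⟩
  have hbdd : ∀ k ∈ K, k ≤ n := by
    rintro k ⟨h', e1, _, _⟩
    rw [size, size_L] at e1
    omega
  obtain ⟨k, hk, hmax⟩ : ∃ k ∈ K, ∀ k' ∈ K, k' ≤ k := by
    have hb : BddAbove K := ⟨n, fun k hk => hbdd k hk⟩
    exact ⟨sSup K, Nat.sSup_mem hne hb, fun k' hk' => le_csSup hb hk'⟩
  obtain ⟨h', e1, e2, e3⟩ := hk
  cases h' with
  | leaf =>
    have : n - 1 = k + 1 := by
      rw [size, size_L, size] at e1; omega
    rw [this]
    exact e2
  | join hh c =>
    cases hh with
    | leaf =>
      exfalso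
      have : k + 1 ∈ K := by
        refine ⟨c, ?_, ?_, ?_⟩
        · rw [← e1]; simp only [size, size_L]; omega
        · rw [← e2, Z_swap c (L (k + 1))]
          have : L (k + 1) = join leaf (L k) := rfl
          rw [this, Z, Z, msg_comm]
        · rw [← e3]
          have : L (k + 1) = join leaf (L k) := rfl
          rw [this]
          simp only [W, rd]; omega
      have := hmax _ this
      omega
    | join h2 c2 =>
      exfalso
      have hrd : 1 ≤ rd (join h2 c2) := by simp [rd]
      generalize join h2 c2 = hh at *
      -- facts on messages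
      have hc : b * (msg a b p q c).2 ≤ a * (msg a b p q c).1 := by
        apply claimAB h (join hh (L k)) c
        intro T hT
        have e4 : Z a b p q (join (join hh (L k)) c) = m0 := by
          rw [← e2, Z, Z, msg_comm]
        rw [e4]
        apply hlow
        rw [hT, ← e1]; simp only [size]; omega
      have hL : b * (msg a b p q (L k)).2 ≤ a * (msg a b p q (L k)).1 := by
        apply claimAB h (join hh c) (L k)
        intro T hT
        rw [e2]
        exact hlow T (hT.trans e1)
      have hpos : (msg a b p q hh).1 ≤ (msg a b p q hh).2 :=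
        pos_of_min h n m0 hlow hh [c, L k] e1 e2
      have hdc := delta_Mv (a := a) (b := b) (p := p) (q := q) (msg a b p q c)
      have hdL := delta_Mv (a := a) (b := b) (p := p) (q := q) (msg a b p q (L k))
      have hLm : (Mv a b p q)^[k + 1] (1, 1) = Mv a b p q (msg a b p q (L k)) := by
        rw [Function.iterate_succ_apply', L, msg_N]
        rfl
      have hD := DN (a := a) (b := b) (p := p) (q := q) (k + 1)
        (Mv a b p q (msg a b p q c)) (msg a b p q hh)
      have eT : av a b p q ((Mv a b p q)^[k + 1] (1, 1) * Mv a b p q (msg a b p q c) *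
          msg a b p q hh) = m0 := by
        rw [← e2, hLm, Z, msg_join, msg_join]
        congr 1; ring
      have eT' : av a b p q (msg a b p q hh * (Mv a b p q)^[k + 1]
          (Mv a b p q (msg a b p q c))) = Z a b p q (join hh (N (k + 1) c)) := by
        rw [Z, msg_join, msg_N]
        congr 2
        rw [← Function.iterate_succ_apply, Function.iterate_succ_apply']
      rw [eT, eT', hLm] at hD
      have hs' : size (join hh (N (k + 1) c)) = n := by
        rw [← e1]; simp only [size, size_N, size_L]; omega
      have hge := hlow _ hs'
      have hrhs : 0 ≤ p * q * a * b * ((Mv a b p q (msg a b p q (L k))).2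
          - (Mv a b p q (msg a b p q (L k))).1)
          * ((Mv a b p q (msg a b p q c)).2 - (Mv a b p q (msg a b p q c)).1)
          * ((msg a b p q hh).2 - (msg a b p q hh).1) := by
        obtain ⟨ha, hp, hq⟩ := par_ap h
        have hb := h.hb
        have x1 : 0 ≤ (Mv a b p q (msg a b p q (L k))).2
          - (Mv a b p q (msg a b p q (L k))).1 := by rw [hdL]; linarith
        have x2 : 0 ≤ (Mv a b p q (msg a b p q c)).2 - (Mv a b p q (msg a b p q c)).1 := by
          rw [hdc]; linarith
        have x3 : 0 ≤ (msg a b p q hh).2 - (msg a b p q hh).1 := by linarith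
        positivity
      have hab : 0 < a - b := by linarith [h.hab]
      have hle : Z a b p q (join hh (N (k + 1) c)) ≤ m0 := by
        have : 0 ≤ (a - b) * (m0 - Z a b p q (join hh (N (k + 1) c))) := by
          rw [hD]; exact hrhs
        have := nonneg_of_mul_nonneg_right this hab
        linarith
      have heq : Z a b p q (join hh (N (k + 1) c)) = m0 := le_antisymm hle hge
      have hW := hlow2 _ hs' heq
      rw [← e3] at hW
      have c1 : W (join hh (N (k + 1) c))
          = W hh + (W c + 2 * rd c + 2 + 4 * k) + 2 * (rd hh + 1) + 2 := by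
        rw [W, W_N, rd_N]
      have c2 : W (join (join hh c) (L k)) = W hh + W c + 2 * (rd hh + rd c) + 2
          + W (L k) + 2 * (rd hh + 1 + rd (L k)) + 2 := by
        simp only [W, rd]
      have c3 : W (L k) + 2 * rd (L k) = 4 * k := by
        cases k with
        | zero => simp [L, N, W, rd]
        | succ k => rw [L, W_N, rd_N]; simp only [W, rd]; omega
      rw [c1, c2] at hW
      omega

/-- The path minimises the weighted count among all trees with `n` vertices. -/
theorem path_min (h : Par a b p q) (hnat : ∀ T : RT, ∃ k : ℕ, Z a b p q T = k)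
    (T : RT) : Z a b p q (L (size T - 1)) ≤ Z a b p q T := by
  classical
  choose f hf using hnat
  by_cases hn : 2 ≤ size T
  · set n := size T with hn'
    have hne : ∃ m, ∃ T, size T = n ∧ f T = m := ⟨f T, T, rfl, rfl⟩
    obtain ⟨T1, hT1, hT1'⟩ := Nat.find_spec hne
    have hmin1 : ∀ T', size T' = n → Nat.find hne ≤ f T' :=
      fun T' hT' => Nat.find_min' hne ⟨T', hT', rfl⟩
    have hne2 : ∃ w, ∃ T, size T = n ∧ f T = Nat.find hne ∧ W T = w :=
      ⟨W T1, T1, hT1, hT1', rfl⟩
    obtain ⟨T2, g1, g2, g3⟩ := Nat.find_spec hne2
    have hmin2 : ∀ T', size T' = n → f T' = Nat.find hne → Nat.find hne2 ≤ W T' :=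
      fun T' h1 h2 => Nat.find_min' hne2 ⟨T', h1, h2, rfl⟩
    have := key h n hn ((Nat.find hne : ℕ) : ℝ) (Nat.find hne2)
      (fun T' hT' => by rw [hf T']; exact_mod_cast hmin1 T' hT')
      (fun T' h1 h2 => by
        apply hmin2 T' h1
        rw [hf T'] at h2
        exact_mod_cast h2)
      T2 g1 (by rw [hf T2, g2]) g3
    rw [this, hf T]
    exact_mod_cast hmin1 T rfl
  · have : T = leaf := by
      cases T with
      | leaf => rfl
      | join t c =>
        exfalso
        apply hn
        rw [size]
        have := size_pos t
        have := size_pos c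
        omega
    rw [this]
    exact le_refl _

end Pool.Agent.TH462.HL2
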