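import Pool.Agent.TH462.HL2.Bridge

set_option autoImplicit false

/-! Complete multipartite graphs with at most two part sizes are Hoffman-London. -/

namespace Pool.Agent.TH462.HL2

open RT Finset Pool.W650.HL

theorem weighted (r : ℕ) (hr : 3 ≤ r) (a b : ℕ) (hb : 0 < b) (hab : b ≤ a)
    (S : Finset (Fin r)) (n : ℕ) (T : SimpleGraph (Fin (n + 1))) (hT : T.IsTree) :
    Zf (fun i : Fin r => if i ∈ S then (a : ℝ) else b) (SimpleGraph.pathGraph (n + 1))
        (fun _ _ => 1)
      ≤ Zf (fun i : Fin r => if i ∈ S then (a : ℝ) else b) T (fun _ _ => 1) := by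
  obtain ⟨R, hR, hZ⟩ := bridge_one (fun i : Fin r => if i ∈ S then (a : ℝ) else b) n T hT
  rw [hZ, path_eq]
  by_cases hc : a = b ∨ S = ∅ ∨ Sᶜ = ∅
  · obtain ⟨s, hs⟩ : ∃ s : ℝ, (fun i : Fin r => if i ∈ S then (a : ℝ) else b) = fun _ => s := by
      rcases hc with hc | hc | hc
      · exact ⟨a, by funext i; simp [hc]⟩
      · exact ⟨b, by funext i; simp [hc]⟩
      · refine ⟨a, ?_⟩
        funext i
        have : i ∈ S := by
          by_contra h
          have : i ∈ Sᶜ := Finset.mem_compl.2 h
          rw [hc] at this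
          simp at this
        simp [this]
    rw [hs, msgF_const, msgF_const, size_L, hR]
  · push Not at hc
    obtain ⟨h1, h2, h3⟩ := hc
    have hP : 1 ≤ S.card := Finset.card_pos.2 h2
    have hQ : 1 ≤ (Sᶜ).card := Finset.card_pos.2 h3
    have hPQ : S.card + (Sᶜ).card = r := by
      rw [Finset.card_add_card_compl, Fintype.card_fin]
    rw [Z_two, Z_two]
    have hpar : Par (a : ℝ) b (S.card) ((Sᶜ).card) := by
      refine ⟨by exact_mod_cast hb, ?_, by exact_mod_cast hP, by exact_mod_cast hQ, ?_⟩
      · exact_mod_cast lt_of_le_of_ne hab (Ne.symm h1)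
      · have : 2 < S.card + (Sᶜ).card := by omega
        exact_mod_cast this
    have := path_min hpar (nat_Z a b _ _ hP hQ) R
    rw [hR] at this
    exact this

theorem main (r : ℕ) (hr : 3 ≤ r) (W : Type) [Fintype W] (p : W → Fin r)
    (hp : Function.Surjective p) (s t : ℕ)
    (hst : ∀ i, Nat.card {w : W // p w = i} = s ∨ Nat.card {w : W // p w = i} = t)
    (n : ℕ) (T : SimpleGraph (Fin n)) (hT : T.IsTree) :
    Nat.card {f : Fin n → W //
        ∀ a b : Fin n, (SimpleGraph.pathGraph n).Adj a b → p (f a) ≠ p (f b)}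
      ≤ Nat.card {f : Fin n → W // ∀ a b : Fin n, T.Adj a b → p (f a) ≠ p (f b)} := by
  classical
  wlog hle : s ≤ t generalizing s t with H
  · exact H t s (fun i => (hst i).symm) (by omega)
  obtain _ | n := n
  · exfalso
    obtain ⟨v⟩ := hT.connected.nonempty
    exact v.elim0
  have hcpos : ∀ i : Fin r, 0 < Nat.card {w : W // p w = i} := by
    intro i
    obtain ⟨w, hw⟩ := hp i
    have : Nonempty {w : W // p w = i} := ⟨⟨w, hw⟩⟩
    exact Nat.card_pos
  let S : Finset (Fin r) := univ.filter (fun i => Nat.card {w : W // p w = i} = t)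
  -- the smaller size, replaced by `t` if it does not occur
  obtain ⟨b, hb, hbt, hw⟩ : ∃ b : ℕ, 0 < b ∧ b ≤ t ∧
      ∀ i : Fin r, (Nat.card {w : W // p w = i} : ℝ) = if i ∈ S then (t : ℝ) else b := by
    by_cases hs : 0 < s
    · refine ⟨s, hs, hle, ?_⟩
      intro i
      by_cases hi : Nat.card {w : W // p w = i} = t
      · have : i ∈ S := Finset.mem_filter.2 ⟨Finset.mem_univ _, hi⟩
        rw [if_pos this, hi]
      · have : i ∉ S := fun h => hi (Finset.mem_filter.1 h).2
        rw [if_neg this]
        rcases hst i with h | h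
        · rw [h]
        · exact absurd h hi
    · have hs0 : s = 0 := by omega
      have hall : ∀ i : Fin r, Nat.card {w : W // p w = i} = t := by
        intro i
        rcases hst i with h | h
        · have := hcpos i; omega
        · exact h
      have ht : 0 < t := by
        have h0 : Fin r := ⟨0, by omega⟩
        rw [← hall h0]
        exact hcpos h0
      refine ⟨t, ht, le_refl _, ?_⟩
      intro i
      have : i ∈ S := Finset.mem_filter.2 ⟨Finset.mem_univ _, hall i⟩
      rw [if_pos this, hall i]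
  have key := weighted r hr t b hb hbt S n T hT
  have h1 := hom' r W p (Fin (n + 1)) (SimpleGraph.pathGraph (n + 1))
  have h2 := hom' r W p (Fin (n + 1)) T
  have hfun : (fun i : Fin r => (Nat.card {w : W // p w = i} : ℝ))
      = fun i => if i ∈ S then (t : ℝ) else b := by
    funext i
    exact hw i
  rw [hfun] at h1 h2
  have : ((Nat.card {f : Fin (n + 1) → W //
            ∀ a b : Fin (n + 1), (SimpleGraph.pathGraph (n + 1)).Adj a b → p (f a) ≠ p (f b)} : ℕ) : ℝ)
          ≤ ((Nat.card {f : Fin (n + 1) → W //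
            ∀ a b : Fin (n + 1), T.Adj a b → p (f a) ≠ p (f b)} : ℕ) : ℝ) := by
    rw [h1, h2]
    exact key
  exact_mod_cast this

end Pool.Agent.TH462.HL2
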