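import Pool.Agent.TH462.HL2.Tree

set_option autoImplicit false

/-! Trees of minimal weighted count are paths, for two-valued weights. -/

namespace Pool.Agent.TH462.HL2

variable {a b p q : ℝ}

open RT

theorem par_ap (h : Par a b p q) : 0 < a ∧ 0 < p ∧ 0 < q :=
  ⟨h.hb.trans h.hab, by linarith [h.hp], by linarith [h.hq]⟩

theorem C_pos (h : Par a b p q) {k : ℝ × ℝ} (h1 : 0 < k.1) (h2 : 0 < k.2) :
    0 < (p - 1) * a * k.1 + (q - 1) * b * k.2 := by
  obtain ⟨ha, hp, hq⟩ := par_ap h
  obtain ⟨hb, hab, hp1, hq1, hpq⟩ := h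
  rcases lt_or_eq_of_le hp1 with h3 | h3
  · have e1 : 0 < (p - 1) * a * k.1 := by
      have : 0 < p - 1 := by linarith
      positivity
    have e2 : 0 ≤ (q - 1) * b * k.2 := by
      have : 0 ≤ q - 1 := by linarith
      positivity
    linarith
  · have e1 : 0 < (q - 1) * b * k.2 := by
      have : 0 < q - 1 := by linarith
      positivity
    rw [← h3]; linarith

/-- a tree whose message prefers light colours has a branch whose message does. -/
theorem exists_branch (B : RT) (hB : (msg a b p q B).1 < (msg a b p q B).2)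
    (h : Par a b p q) :
    ∃ B' y : RT, msg a b p q B = msg a b p q B' * Mv a b p q (msg a b p q y) ∧
      size B = size B' + size y ∧
      b * (msg a b p q y).2 < a * (msg a b p q y).1 := by
  induction B with
  | leaf => simp at hB
  | join t c ih _ =>
    by_cases hc : (Mv a b p q (msg a b p q c)).1 < (Mv a b p q (msg a b p q c)).2
    · refine ⟨t, c, rfl, rfl, ?_⟩
      have := delta_Mv (a := a) (b := b) (p := p) (q := q) (msg a b p q c)
      linarith
    · have ht : (msg a b p q t).1 < (msg a b p q t).2 := by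
        by_contra hcon
        push Not at hc hcon
        simp only [msg_join, Prod.fst_mul, Prod.snd_mul] at hB
        have p1 := msg_pos h t
        have p2 := Mv_pos h (msg_pos h c).1 (msg_pos h c).2
        have : (msg a b p q t).2 * (Mv a b p q (msg a b p q c)).2
            ≤ (msg a b p q t).1 * (Mv a b p q (msg a b p q c)).1 :=
          mul_le_mul hcon hc p2.2.le p1.1.le
        linarith
      obtain ⟨B', y, h1, h2, h3⟩ := ih ht
      refine ⟨join B' c, y, ?_, ?_, h3⟩
      · rw [msg_join, msg_join, h1]; ring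
      · simp only [size, h2]; omega

theorem key1 (h : Par a b p q) {y : ℝ × ℝ} (hy : b * y.2 < a * y.1) (h1 : 0 < y.1)
    (h2 : 0 < y.2) :
    b * y.2 * (Mv a b p q y).2 ≤ a * y.1 * (Mv a b p q y).1 := by
  obtain ⟨ha, hp, hq⟩ := par_ap h
  obtain ⟨hb, hab, hp1, hq1, hpq⟩ := h
  have e : a * y.1 * (Mv a b p q y).1 - b * y.2 * (Mv a b p q y).2
      = (a * y.1 - b * y.2) * ((p - 1) * (a * y.1) + (q - 1) * (b * y.2)) := by
    simp only [Mv]; ring
  have e1 : 0 ≤ a * y.1 - b * y.2 := by linarith
  have e2 : 0 ≤ (p - 1) * (a * y.1) + (q - 1) * (b * y.2) := by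
    have : 0 ≤ p - 1 := by linarith
    have : 0 ≤ q - 1 := by linarith
    positivity
  have := mul_nonneg e1 e2
  linarith

/-- Step A. -/
theorem stepA (h : Par a b p q) {F k y : ℝ × ℝ} (k1 : 0 < k.1) (k2 : 0 < k.2)
    (y1 : 0 < y.1) (y2 : 0 < y.2)
    (hy : b * y.2 < a * y.1) (hF : b * F.2 < a * F.1)
    (hG : a * (k * Mv a b p q y).1 < b * (k * Mv a b p q y).2) :
    av a b p q (k * Mv a b p q (y * Mv a b p q F))
      < av a b p q ((k * Mv a b p q y) * Mv a b p q F) := by
  obtain ⟨ha, hp, hq⟩ := par_ap h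
  have hb := h.hb
  have hD := D1 (a := a) (b := b) (p := p) (q := q) k (Mv a b p q F) y
  have hd := delta_Mv (a := a) (b := b) (p := p) (q := q) F
  have e : k * Mv a b p q F * Mv a b p q y = (k * Mv a b p q y) * Mv a b p q F := by ring
  have e2 : Mv a b p q F * y = y * Mv a b p q F := by ring
  rw [e, e2] at hD
  have hX : 0 < k.2 * y.1 - k.1 * y.2 := by
    by_contra hcon
    push Not at hcon
    have hk := key1 h hy y1 y2
    obtain ⟨m1, m2⟩ := Mv_pos h y1 y2
    simp only [Prod.fst_mul, Prod.snd_mul] at hG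
    have s1 : b * (k.2 * (Mv a b p q y).2) * y.1 ≤ k.1 * (b * y.2 * (Mv a b p q y).2) := by
      have : k.2 * y.1 ≤ k.1 * y.2 := by linarith
      calc b * (k.2 * (Mv a b p q y).2) * y.1 = (b * (Mv a b p q y).2) * (k.2 * y.1) := by ring
        _ ≤ (b * (Mv a b p q y).2) * (k.1 * y.2) := by
            apply mul_le_mul_of_nonneg_left this; positivity
        _ = k.1 * (b * y.2 * (Mv a b p q y).2) := by ring
    have s2 : k.1 * (b * y.2 * (Mv a b p q y).2) ≤ k.1 * (a * y.1 * (Mv a b p q y).1) :=
      mul_le_mul_of_nonneg_left hk k1.le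
    have s3 : b * (k.2 * (Mv a b p q y).2) * y.1 ≤ a * (k.1 * (Mv a b p q y).1) * y.1 := by
      calc b * (k.2 * (Mv a b p q y).2) * y.1 ≤ k.1 * (a * y.1 * (Mv a b p q y).1) :=
            s1.trans s2
        _ = a * (k.1 * (Mv a b p q y).1) * y.1 := by ring
    have s4 := le_of_mul_le_mul_right s3 y1
    linarith
  have hm : 0 < (Mv a b p q F).2 - (Mv a b p q F).1 := by rw [hd]; linarith
  have : 0 < p * q * a * b * ((Mv a b p q F).2 - (Mv a b p q F).1)
      * (k.2 * y.1 - k.1 * y.2) := by positivity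
  linarith

/-- Step B. -/
theorem stepB (h : Par a b p q) {f k y z : ℝ × ℝ} (k1 : 0 < k.1) (k2 : 0 < k.2)
    (f1 : 0 < f.1) (f2 : 0 < f.2) (y1 : 0 < y.1) (y2 : 0 < y.2) (z1 : 0 < z.1) (z2 : 0 < z.2)
    (hy : b * y.2 < a * y.1) (hz : b * z.2 < a * z.1)
    (hF : a * (f * Mv a b p q z).1 ≤ b * (f * Mv a b p q z).2)
    (hG : a * (k * Mv a b p q y).1 < b * (k * Mv a b p q y).2) :
    av a b p q (k * Mv a b p q f * Mv a b p q (y * Mv a b p q z))
        < av a b p q ((f * Mv a b p q z) * Mv a b p q (k * Mv a b p q y)) ∨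
    av a b p q (f * Mv a b p q k * Mv a b p q (z * Mv a b p q y))
        < av a b p q ((f * Mv a b p q z) * Mv a b p q (k * Mv a b p q y)) := by
  obtain ⟨ha, hp, hq⟩ := par_ap h
  have hb := h.hb
  have hdz := delta_Mv (a := a) (b := b) (p := p) (q := q) z
  have hdy := delta_Mv (a := a) (b := b) (p := p) (q := q) y
  have D := D2 (a := a) (b := b) (p := p) (q := q) k f (Mv a b p q z) y
  have D' := D2 (a := a) (b := b) (p := p) (q := q) f k (Mv a b p q y) z
  have e1 : av a b p q ((f * Mv a b p q z) * Mv a b p q (k * Mv a b p q y))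
      = av a b p q (k * Mv a b p q (f * Mv a b p q z) * Mv a b p q y) := by
    rw [av_symm]; congr 1; ring
  have e2 : av a b p q ((f * Mv a b p q z) * Mv a b p q (k * Mv a b p q y))
      = av a b p q (f * Mv a b p q (k * Mv a b p q y) * Mv a b p q z) := by
    congr 1; ring
  by_contra hcon
  push Not at hcon
  obtain ⟨c1, c2⟩ := hcon
  rw [e1] at c1
  rw [e2] at c2
  have P1 : 0 < p * q * a * b * ((p - 1) * a * k.1 + (q - 1) * b * k.2)
      * ((Mv a b p q z).2 - (Mv a b p q z).1) := by
    have := C_pos h k1 k2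
    have : 0 < (Mv a b p q z).2 - (Mv a b p q z).1 := by rw [hdz]; linarith
    positivity
  have P2 : 0 < p * q * a * b * ((p - 1) * a * f.1 + (q - 1) * b * f.2)
      * ((Mv a b p q y).2 - (Mv a b p q y).1) := by
    have := C_pos h f1 f2
    have : 0 < (Mv a b p q y).2 - (Mv a b p q y).1 := by rw [hdy]; linarith
    positivity
  have X1 : f.2 * y.1 - f.1 * y.2 ≤ 0 := by
    by_contra hc
    push Not at hc
    have := mul_pos P1 hc
    linarith
  have X2 : k.2 * z.1 - k.1 * z.2 ≤ 0 := by
    by_contra hc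
    push Not at hc
    have := mul_pos P2 hc
    linarith
  obtain ⟨my1, my2⟩ := Mv_pos h y1 y2
  obtain ⟨mz1, mz2⟩ := Mv_pos h z1 z2
  simp only [Prod.fst_mul, Prod.snd_mul] at hF hG
  -- (I)
  have I1 : a * y.1 * (Mv a b p q z).1 ≤ b * y.2 * (Mv a b p q z).2 := by
    have s1 : b * (f.2 * (Mv a b p q z).2) * y.1 ≤ f.1 * (b * y.2 * (Mv a b p q z).2) := by
      have : f.2 * y.1 ≤ f.1 * y.2 := by linarith
      calc b * (f.2 * (Mv a b p q z).2) * y.1 = (b * (Mv a b p q z).2) * (f.2 * y.1) := by ring
        _ ≤ (b * (Mv a b p q z).2) * (f.1 * y.2) := by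
            apply mul_le_mul_of_nonneg_left this; positivity
        _ = f.1 * (b * y.2 * (Mv a b p q z).2) := by ring
    have s2 : a * (f.1 * (Mv a b p q z).1) * y.1 ≤ b * (f.2 * (Mv a b p q z).2) * y.1 :=
      mul_le_mul_of_nonneg_right hF y1.le
    have s3 : f.1 * (a * y.1 * (Mv a b p q z).1) ≤ f.1 * (b * y.2 * (Mv a b p q z).2) := by
      calc f.1 * (a * y.1 * (Mv a b p q z).1) = a * (f.1 * (Mv a b p q z).1) * y.1 := by ring
        _ ≤ _ := s2.trans s1
    exact le_of_mul_le_mul_left s3 f1
  -- (II)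
  have I2 : a * z.1 * (Mv a b p q y).1 < b * z.2 * (Mv a b p q y).2 := by
    have s1 : b * (k.2 * (Mv a b p q y).2) * z.1 ≤ k.1 * (b * z.2 * (Mv a b p q y).2) := by
      have : k.2 * z.1 ≤ k.1 * z.2 := by linarith
      calc b * (k.2 * (Mv a b p q y).2) * z.1 = (b * (Mv a b p q y).2) * (k.2 * z.1) := by ring
        _ ≤ (b * (Mv a b p q y).2) * (k.1 * z.2) := by
            apply mul_le_mul_of_nonneg_left this; positivity
        _ = k.1 * (b * z.2 * (Mv a b p q y).2) := by ring
    have s2 : a * (k.1 * (Mv a b p q y).1) * z.1 < b * (k.2 * (Mv a b p q y).2) * z.1 :=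
      mul_lt_mul_of_pos_right hG z1
    have s3 : k.1 * (a * z.1 * (Mv a b p q y).1) < k.1 * (b * z.2 * (Mv a b p q y).2) := by
      calc k.1 * (a * z.1 * (Mv a b p q y).1) = a * (k.1 * (Mv a b p q y).1) * z.1 := by ring
        _ < _ := s2.trans_le s1
    exact lt_of_mul_lt_mul_left s3 k1.le
  have hp1 : 0 ≤ p - 1 := by linarith [h.hp]
  have hq1 : 0 ≤ q - 1 := by linarith [h.hq]
  have u1 : 0 ≤ a * y.1 - b * y.2 := by linarith
  have u2 : 0 ≤ a * z.1 - b * z.2 := by linarith
  have w1 : 0 ≤ (p - 1) * ((a * y.1) * (a * z.1 - b * z.2) + (a * z.1) * (a * y.1 - b * y.2)) := by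
    positivity
  have w2 : 0 ≤ (q - 1) * ((b * z.2) * (a * y.1 - b * y.2) + (b * y.2) * (a * z.1 - b * z.2)) := by
    positivity
  simp only [Mv] at I1 I2
  nlinarith

/-- In a tree of minimal count all branches are heavy at their roots. -/
theorem claimAB (h : Par a b p q) (X B : RT)
    (hmin : ∀ T, size T = size (join X B) → Z a b p q (join X B) ≤ Z a b p q T) :
    b * (msg a b p q B).2 ≤ a * (msg a b p q B).1 := by
  by_contra hcon
  push Not at hcon
  have hb := h.hb
  have hab := h.hab
  have PB := msg_pos h B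
  have PX := msg_pos h X
  have hB : (msg a b p q B).1 < (msg a b p q B).2 := by
    by_contra hc
    push Not at hc
    have : b * (msg a b p q B).2 ≤ a * (msg a b p q B).1 :=
      mul_le_mul hab.le hc PB.2.le (hb.trans hab).le
    linarith
  obtain ⟨B', y, e1, e2, e3⟩ := exists_branch B hB h
  have PB' := msg_pos h B'
  have Py := msg_pos h y
  rw [e1] at hcon
  by_cases hF : b * (msg a b p q X).2 < a * (msg a b p q X).1
  · have hA := stepA h PB'.1 PB'.2 Py.1 Py.2 e3 hF hcon
    have hm := hmin (join B' (join y X)) (by simp only [size, e2]; omega)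
    have : Z a b p q (join X B)
        = av a b p q ((msg a b p q B' * Mv a b p q (msg a b p q y)) *
            Mv a b p q (msg a b p q X)) := by
      rw [Z_swap, Z, msg_join, e1]
    rw [this] at hm
    have : Z a b p q (join B' (join y X)) = av a b p q (msg a b p q B' *
        Mv a b p q (msg a b p q y * Mv a b p q (msg a b p q X))) := rfl
    rw [this] at hm
    linarith
  · push Not at hF
    have hX : (msg a b p q X).1 < (msg a b p q X).2 := by
      by_contra hc
      push Not at hc
      have : b * (msg a b p q X).2 < a * (msg a b p q X).1 :=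
        mul_lt_mul hab hc PX.2 (hb.trans hab).le
      linarith
    obtain ⟨X', z, g1, g2, g3⟩ := exists_branch X hX h
    have PX' := msg_pos h X'
    have Pz := msg_pos h z
    rw [g1] at hF
    have hB' := stepB h PB'.1 PB'.2 PX'.1 PX'.2 Py.1 Py.2 Pz.1 Pz.2 e3 g3 hF hcon
    have hZ : Z a b p q (join X B)
        = av a b p q ((msg a b p q X' * Mv a b p q (msg a b p q z)) *
            Mv a b p q (msg a b p q B' * Mv a b p q (msg a b p q y))) := by
      rw [Z, msg_join, e1, g1]
    rw [← hZ] at hB'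
    rcases hB' with hB' | hB'
    · have hm := hmin (join (join B' X') (join y z)) (by simp only [size, e2, g2]; omega)
      have : Z a b p q (join (join B' X') (join y z)) = av a b p q (msg a b p q B' *
        Mv a b p q (msg a b p q X') *
          Mv a b p q (msg a b p q y * Mv a b p q (msg a b p q z))) := rfl
      linarith
    · have hm := hmin (join (join X' B') (join z y)) (by simp only [size, e2, g2]; omega)
      have : Z a b p q (join (join X' B') (join z y)) = av a b p q (msg a b p q X' *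
        Mv a b p q (msg a b p q B') *
          Mv a b p q (msg a b p q z * Mv a b p q (msg a b p q y))) := rfl
      linarith

end Pool.Agent.TH462.HL2
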