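import Mathlib

set_option autoImplicit false

/-! Rooted plane trees in binary form, and their weighted counts for two-valued weights. -/

namespace Pool.Agent.TH462.HL2

/-- `leaf` is the one vertex tree; `join t c` attaches the root of `c` to the root of `t` by an
edge, the root is that of `t`. -/
inductive RT : Type
  | leaf : RT
  | join : RT → RT → RT

namespace RT

/-- number of vertices -/
def size : RT → ℕ
  | leaf => 1
  | join t c => size t + size c

/-- degree of the root -/
def rd : RT → ℕ
  | leaf => 0
  | join t _ => rd t + 1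

/-- sum of the squares of the degrees -/
def W : RT → ℕ
  | leaf => 0
  | join t c => W t + W c + 2 * (rd t + rd c) + 2

/-- `N k c` is a path of `k` vertices with the root at its first vertex and `c` attached to its
last vertex. -/
def N : ℕ → RT → RT
  | 0, c => c
  | k + 1, c => join leaf (N k c)

/-- the path with `k+1` vertices -/
def L (k : ℕ) : RT := N k leaf

theorem size_pos (t : RT) : 0 < size t := by
  induction t with
  | leaf => simp [size]
  | join t c h1 h2 => simp [size]; omega

theorem size_N (k : ℕ) (c : RT) : size (N k c) = k + size c := by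
  induction k with
  | zero => simp [N]
  | succ k ih => simp [N, size, ih]; omega

theorem size_L (k : ℕ) : size (L k) = k + 1 := by
  simp [L, size_N, size]

theorem rd_N (k : ℕ) (c : RT) : rd (N (k + 1) c) = 1 := by
  simp [N, rd]

theorem W_N (k : ℕ) (c : RT) : W (N (k + 1) c) = W c + 2 * rd c + 2 + 4 * k := by
  induction k with
  | zero => simp [N, W, rd]
  | succ k ih =>
    have h : N (k + 1 + 1) c = join leaf (N (k + 1) c) := rfl
    rw [h]
    simp only [W, ih, rd, rd_N]
    omega

end RT

variable (a b p q : ℝ)

/-- message operator on a pair (value on heavy colours, value on light colours) -/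
def Mv (f : ℝ × ℝ) : ℝ × ℝ :=
  ((p - 1) * a * f.1 + q * b * f.2, p * a * f.1 + (q - 1) * b * f.2)

/-- weighted sum -/
def av (f : ℝ × ℝ) : ℝ := p * a * f.1 + q * b * f.2

/-- message of a rooted tree at its root -/
def msg : RT → ℝ × ℝ
  | RT.leaf => (1, 1)
  | RT.join t c => msg t * Mv a b p q (msg c)

/-- weighted count of a tree -/
def Z (t : RT) : ℝ := av a b p q (msg a b p q t)

@[simp] theorem msg_leaf : msg a b p q RT.leaf = (1, 1) := rfl

@[simp] theorem msg_join (t c : RT) :
    msg a b p q (RT.join t c) = msg a b p q t * Mv a b p q (msg a b p q c) := rfl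

/-- hypotheses on the parameters -/
structure Par : Prop where
  hb : 0 < b
  hab : b < a
  hp : 1 ≤ p
  hq : 1 ≤ q
  hpq : 2 < p + q

variable {a b p q}

theorem Mv_pos (h : Par a b p q) {f : ℝ × ℝ} (h1 : 0 < f.1) (h2 : 0 < f.2) :
    0 < (Mv a b p q f).1 ∧ 0 < (Mv a b p q f).2 := by
  obtain ⟨hb, hab, hp, hq, hpq⟩ := h
  have ha : 0 < a := hb.trans hab
  have hp0 : 0 < p := by linarith
  have hq0 : 0 < q := by linarith
  constructor
  · have e1 : 0 ≤ (p - 1) * a * f.1 := by
      have : 0 ≤ p - 1 := by linarith
      positivity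
    have e2 : 0 < q * b * f.2 := by positivity
    simp only [Mv]; linarith
  · have e1 : 0 ≤ (q - 1) * b * f.2 := by
      have : 0 ≤ q - 1 := by linarith
      positivity
    have e2 : 0 < p * a * f.1 := by positivity
    simp only [Mv]; linarith

theorem msg_pos (h : Par a b p q) (t : RT) :
    0 < (msg a b p q t).1 ∧ 0 < (msg a b p q t).2 := by
  induction t with
  | leaf => simp
  | join t c h1 h2 =>
    obtain ⟨m1, m2⟩ := Mv_pos h h2.1 h2.2
    simp only [msg_join, Prod.fst_mul, Prod.snd_mul]
    exact ⟨mul_pos h1.1 m1, mul_pos h1.2 m2⟩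

/-- symmetry of the edge form -/
theorem av_symm (f g : ℝ × ℝ) :
    av a b p q (f * Mv a b p q g) = av a b p q (g * Mv a b p q f) := by
  simp only [av, Mv, Prod.fst_mul, Prod.snd_mul]
  ring

theorem Z_swap (t c : RT) : Z a b p q (RT.join t c) = Z a b p q (RT.join c t) := by
  simp only [Z, msg_join]
  exact av_symm _ _

theorem W_swap (t c : RT) : RT.W (RT.join t c) = RT.W (RT.join c t) := by
  simp only [RT.W]; omega

theorem size_swap (t c : RT) : RT.size (RT.join t c) = RT.size (RT.join c t) := by
  simp only [RT.size]; omega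

theorem msg_comm (t c d : RT) :
    msg a b p q (RT.join (RT.join t c) d) = msg a b p q (RT.join (RT.join t d) c) := by
  simp only [msg_join]
  ring

/-- moving a branch along an edge -/
theorem D1 (h m G : ℝ × ℝ) :
    av a b p q ((h * m) * Mv a b p q G) - av a b p q (h * Mv a b p q (m * G))
      = p * q * a * b * (m.2 - m.1) * (h.2 * G.1 - h.1 * G.2) := by
  simp only [av, Mv, Prod.fst_mul, Prod.snd_mul]
  ring

/-- moving a branch to a vertex at distance two -/
theorem D2 (K h m g : ℝ × ℝ) :
    av a b p q (K * Mv a b p q (h * m) * Mv a b p q g)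
        - av a b p q (K * Mv a b p q h * Mv a b p q (g * m))
      = p * q * a * b * ((p - 1) * a * K.1 + (q - 1) * b * K.2) * (m.2 - m.1)
          * (h.2 * g.1 - h.1 * g.2) := by
  simp only [av, Mv, Prod.fst_mul, Prod.snd_mul]
  ring

theorem delta_Mv (f : ℝ × ℝ) :
    (Mv a b p q f).2 - (Mv a b p q f).1 = a * f.1 - b * f.2 := by
  simp only [Mv]; ring

/-- moving a branch to the end of a leg -/
theorem DN (k : ℕ) (m h : ℝ × ℝ) :
    (a - b) * (av a b p q ((Mv a b p q)^[k] (1, 1) * m * h)
        - av a b p q (h * (Mv a b p q)^[k] m))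
      = p * q * a * b * (((Mv a b p q)^[k] (1, 1)).2 - ((Mv a b p q)^[k] (1, 1)).1)
          * (m.2 - m.1) * (h.2 - h.1) := by
  induction k generalizing m with
  | zero =>
    simp only [Function.iterate_zero, id_eq, av, Prod.fst_mul, Prod.snd_mul]
    ring
  | succ k ih =>
    have h1 := ih (Mv a b p q m)
    rw [Function.iterate_succ_apply] at *
    rw [Function.iterate_succ_apply (Mv a b p q) k m]
    rw [← Function.iterate_succ_apply, Function.iterate_succ_apply']
    set u := (Mv a b p q)^[k] (1, 1) with hu
    have e : av a b p q (Mv a b p q u * m * h) - av a b p q (u * Mv a b p q m * h)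
        = p * q * a * b * (h.2 - h.1) * (m.2 * u.1 - m.1 * u.2) := by
      simp only [av, Mv, Prod.fst_mul, Prod.snd_mul]
      ring
    have e2 : (Mv a b p q u).2 - (Mv a b p q u).1 = a * u.1 - b * u.2 := delta_Mv u
    have e3 : (Mv a b p q m).2 - (Mv a b p q m).1 = a * m.1 - b * m.2 := delta_Mv m
    rw [e2]
    rw [e3] at h1
    linear_combination h1 + (a - b) * e

theorem msg_N (k : ℕ) (c : RT) :
    msg a b p q (RT.N k c) = (Mv a b p q)^[k] (msg a b p q c) := by
  induction k with
  | zero => simp [RT.N]
  | succ k ih =>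
    rw [RT.N, msg_join, ih, Function.iterate_succ_apply']
    simp only [msg_leaf]
    ext <;> simp

end Pool.Agent.TH462.HL2
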